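import Pool.Agent.Helper65.DC.Ker

/-!
# Good spanning trees of cubic graphs: a parity theorem

`IsGood G T` is the goodness condition of the problem for a spanning tree `T` of a cubic graph `G`
(no component of `G - E(T)` is a path with two or more edges).

* `core J` : vertices `v` of degree three of `J` with `J - v` connected;
* `Scattered J X` : every component of the graph induced by `core J` meets at most one edge of `X`;
* `EvenCut J A` : every vertex has an even number of `J`-neighbours on the other side of the
  partition `(A, Aᶜ)`.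
-/

set_option autoImplicit false

namespace Pool.Agent.Results.MP_34c651_co.ParityTheorem

open Pool.Agent.Helper65.DC

/-- all that is needed about the ambient data -/
theorem setup {V : Type} [Fintype V] [DecidableEq V] (G : SimpleGraph V) [DecidableRel G.Adj]
    (hG : G.IsRegularOfDegree 3) (J : SimpleGraph V) (hJ : J ≤ G)
    (hodd : ∀ v, Odd (J.neighborSet v).ncard) [Nonempty V] :
    (∀ v, (G.neighborSet v).ncard = 3) ∧ Amb (ef J) := by
  classical
  have hG3 : ∀ v, (G.neighborSet v).ncard = 3 := by
    intro v
    rw [← Nat.card_coe_set_eq, Nat.card_eq_fintype_card, SimpleGraph.card_neighborSet_eq_degree]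
    exact hG v
  refine ⟨hG3, amb_of J ?_ ?_⟩
  · intro v
    have h1 : (J.neighborSet v).ncard ≤ 3 := by
      rw [← hG3 v]
      exact Set.ncard_le_ncard (fun w hw => hJ hw) (Set.toFinite _)
    have h2 := hodd v
    have h3 : (J.neighborSet v).ncard % 2 = 1 := Nat.odd_iff.1 h2
    omega
  · obtain ⟨v⟩ := ‹Nonempty V›
    have h1 := hG3 v
    have h2 : (G.neighborSet v).ncard ≤ Fintype.card V := by
      rw [← Nat.card_eq_fintype_card, ← Set.ncard_univ]
      exact Set.ncard_le_ncard (Set.subset_univ _) (Set.toFinite _)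
    omega

theorem parity_graph {V : Type} [Fintype V] [DecidableEq V] (G : SimpleGraph V) [DecidableRel G.Adj]
    (hG : G.IsRegularOfDegree 3) (J : SimpleGraph V) (hJ : J ≤ G)
    (hodd : ∀ v, Odd (J.neighborSet v).ncard) [Nonempty V] (X : Finset (Sym2 V))
    (hX : (X : Set (Sym2 V)) ⊆ J.edgeSet) (hs : Scattered J (X : Set (Sym2 V))) :
    (({T : SimpleGraph V | T ≤ J ∧ T.IsTree ∧ Disjoint T.edgeSet (X : Set (Sym2 V)) ∧
        IsGood G T}.ncard : ℕ) : ZMod 2) = ((Trees (ef J \ X)).card : ZMod 2) := by
  classical
  obtain ⟨hG3, hA⟩ := setup G hG J hJ hodd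
  have hX' : X ⊆ ef J := by
    intro e he
    rw [mem_ef]
    exact hX (by exact_mod_cast he)
  rw [count_eq J X (fun T => IsGood G T) (fun S => Good (ef J) S)
    (fun T hT hsp => isGood_iff hG3 hJ hA hT hsp)]
  exact parity hA hX' (scat_of_scattered J X hs) fun T hT v hv => by
    obtain ⟨h1, h2, h3⟩ := (mem_Trees _ _).1 hT
    exact core_of_leaf J hA (h1.trans Finset.sdiff_subset) h3 hv

theorem count_trees {V : Type} [Fintype V] [DecidableEq V] [Nonempty V] (J : SimpleGraph V)
    (X : Finset (Sym2 V)) :
    {T : SimpleGraph V | T ≤ J ∧ T.IsTree ∧ Disjoint T.edgeSet (X : Set (Sym2 V))}.ncard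
      = (Trees (ef J \ X)).card := by
  classical
  have h := count_eq J X (fun _ => True) (fun _ => True) (fun _ _ _ => Iff.rfl)
  rw [Finset.filter_true_of_mem (fun _ _ => trivial)] at h
  rw [← h]
  simp only [and_true]

/-- a finite graph has finitely many subsets of edges -/
theorem exists_finset {V : Type} [Fintype V] [DecidableEq V] (X : Set (Sym2 V)) :
    ∃ Y : Finset (Sym2 V), (Y : Set (Sym2 V)) = X := by
  classical
  exact ⟨(Set.toFinite X).toFinset, Set.Finite.coe_toFinset _⟩

theorem scattered_of_card {V : Type} [DecidableEq V] (J : SimpleGraph V) (X : Finset (Sym2 V))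
    (h : X.card ≤ 1) : Scattered J (X : Set (Sym2 V)) := by
  intro e he f hf _ _ _ _ _
  exact Finset.card_le_one.1 h e (by exact_mod_cast he) f (by exact_mod_cast hf)

/-- **Parity theorem for good spanning trees of cubic graphs.** Let `G` be cubic and let `J` be a
connected spanning subgraph all of whose degrees are odd (`G` minus the edges of disjoint cycles).
For every scattered set `X` of edges of `J`, the number of good spanning trees of `G` inside `J - X`
has the parity of the number of all spanning trees of `J - X`; hence a good spanning tree exists if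
`J - X` has no nontrivial even cut. One also exists if `J` has at most one nontrivial even cut. -/
theorem result :
    ∀ (V : Type) [Fintype V] [DecidableEq V] (G : SimpleGraph V) [DecidableRel G.Adj],
      G.IsRegularOfDegree 3 → ∀ J : SimpleGraph V, J ≤ G → J.Connected →
      (∀ v, Odd (J.neighborSet v).ncard) →
      (∀ X : Set (Sym2 V), X ⊆ J.edgeSet → Scattered J X →
        ({T : SimpleGraph V | T ≤ J ∧ T.IsTree ∧ Disjoint T.edgeSet X ∧ IsGood G T}.ncard ≡
          {T : SimpleGraph V | T ≤ J ∧ T.IsTree ∧ Disjoint T.edgeSet X}.ncard [MOD 2]) ∧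
        ((∀ A : Set V, A.Nonempty → A ≠ Set.univ → ¬ EvenCut (J.deleteEdges X) A) →
          ∃ T : SimpleGraph V, T ≤ J ∧ T.IsTree ∧ Disjoint T.edgeSet X ∧ IsGood G T)) ∧
      ((∀ A B : Set V, A.Nonempty → A ≠ Set.univ → B.Nonempty → B ≠ Set.univ →
        EvenCut J A → EvenCut J B → A = B ∨ A = Bᶜ) →
          ∃ T : SimpleGraph V, T ≤ J ∧ T.IsTree ∧ IsGood G T) := by
  classical
  intro V _ _ G _ hG J hJ hJc hodd
  have hne : Nonempty V := hJc.nonempty
  obtain ⟨hG3, hA⟩ := setup G hG J hJ hodd
  -- nonconstant potentials give nontrivial even cuts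
  have hnt : ∀ (x : V → ZMod 2), (∃ a b, x a ≠ x b) →
      ({v | x v = 1} : Set V).Nonempty ∧ ({v | x v = 1} : Set V) ≠ Set.univ := by
    rintro x ⟨a, b, hab⟩
    have h01 : ∀ y z : ZMod 2, y ≠ z → (y = 1 ∧ z ≠ 1) ∨ (z = 1 ∧ y ≠ 1) := by decide
    rcases h01 _ _ hab with ⟨h1, h2⟩ | ⟨h1, h2⟩
    · exact ⟨⟨a, h1⟩, fun h => h2 (by have : b ∈ ({v | x v = 1} : Set V) := by rw [h]; trivial
                                      exact this)⟩
    · exact ⟨⟨b, h1⟩, fun h => h2 (by have : a ∈ ({v | x v = 1} : Set V) := by rw [h]; trivial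
                                      exact this)⟩
  -- an odd number of trees gives a good tree
  have hex : ∀ X : Finset (Sym2 V), (X : Set (Sym2 V)) ⊆ J.edgeSet →
      Scattered J (X : Set (Sym2 V)) → ((Trees (ef J \ X)).card : ZMod 2) = 1 →
        ∃ T : SimpleGraph V, T ≤ J ∧ T.IsTree ∧ Disjoint T.edgeSet (X : Set (Sym2 V)) ∧ IsGood G T := by
    intro X hX hs hτ
    have h1 := parity_graph G hG J hJ hodd X hX hs
    rw [hτ] at h1
    by_contra h
    push Not at h
    have h2 : {T : SimpleGraph V | T ≤ J ∧ T.IsTree ∧ Disjoint T.edgeSet (X : Set (Sym2 V)) ∧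
        IsGood G T} = ∅ := by
      rw [Set.eq_empty_iff_forall_notMem]
      rintro T ⟨h3, h4, h5, h6⟩
      exact h T h3 h4 h5 h6
    rw [h2, Set.ncard_empty] at h1
    exact absurd h1 (by simp)
  refine ⟨fun X hX hs => ?_, fun hcut => ?_⟩
  · obtain ⟨Y, rfl⟩ := exists_finset X
    refine ⟨?_, fun hcut => ?_⟩
    · have h1 := parity_graph G hG J hJ hodd Y hX hs
      rw [← count_trees J Y] at h1
      exact (ZMod.natCast_eq_natCast_iff _ _ _).1 h1
    · refine hex Y hX hs ?_
      apply tau_odd _ (fun e he => hA.nd e (Finset.mem_sdiff.1 he).1)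
      intro x hx
      by_contra hc
      push Not at hc
      obtain ⟨h1, h2⟩ := hnt x hc
      refine hcut _ h1 h2 (evenCut_of_cross _ (ef J \ Y) ?_ x hx)
      intro v w
      rw [Finset.mem_sdiff, mk_mem_ef, SimpleGraph.deleteEdges_adj]
      simp
  · obtain ⟨X, hX, hX1, hτ⟩ := exists_edge (ef J) hA.nd ((connected_iff_Sp J).1 hJc) (by
      intro x y hx hy hxn hyn a b hab
      obtain ⟨h1, h2⟩ := hnt x hxn
      obtain ⟨h3, h4⟩ := hnt y hyn
      have hJa : ∀ v w, s(v, w) ∈ ef J ↔ J.Adj v w := mk_mem_ef J
      have h01 : ∀ z : ZMod 2, z = 0 ∨ z = 1 := by decide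
      rcases hcut _ _ h1 h2 h3 h4 (evenCut_of_cross J (ef J) hJa x hx)
        (evenCut_of_cross J (ef J) hJa y hy) with h | h
      · have key : ∀ c, x c = 1 ↔ y c = 1 := fun c => by
          have := Set.ext_iff.1 h c
          exact this
        have ha := key a
        have hb := key b
        rw [hab] at ha
        rcases h01 (y a) with h5 | h5 <;> rcases h01 (y b) with h6 | h6
        · rw [h5, h6]
        · exfalso
          have := ha.1 (hb.2 h6)
          rw [h5] at this
          exact absurd this (by decide)
        · exfalso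
          have := hb.1 (ha.2 h5)
          rw [h6] at this
          exact absurd this (by decide)
        · rw [h5, h6]
      · have key : ∀ c, x c = 1 ↔ ¬ y c = 1 := fun c => by
          have := Set.ext_iff.1 h c
          exact this
        have ha := key a
        have hb := key b
        rw [hab] at ha
        rcases h01 (y a) with h5 | h5 <;> rcases h01 (y b) with h6 | h6
        · rw [h5, h6]
        · exfalso
          have := hb.1 (ha.2 (by rw [h5]; decide))
          exact this h6
        · exfalso
          have := ha.1 (hb.2 (by rw [h6]; decide))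
          exact this h5
        · rw [h5, h6])
    have hX' : (X : Set (Sym2 V)) ⊆ J.edgeSet := by
      intro e he
      exact (mem_ef _ _).1 (hX (by exact_mod_cast he))
    obtain ⟨T, h1, h2, -, h4⟩ := hex X hX' (scattered_of_card J X hX1) hτ
    exact ⟨T, h1, h2, h4⟩

end Pool.Agent.Results.MP_34c651_co.ParityTheorem
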